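import Pool.Agent.H68.L.R_seed8.Y703.CQ.Stm
import Pool.Agent.H68.L.R_seed8.Y759.CX.LA

/-!
# Project CQ: random symmetric forms over the field with two elements (abstract part)
-/

set_option autoImplicit false

open scoped Classical

namespace Pool.Agent.Y219.CQ

open Function Module
open Pool.Agent.Y759.CX (fr fr_equiv fr_nonneg fr_le_one fr_mono fr_not fr_prod fr_comp fr_exists
  fr_single)
open Pool.Agent.Y703.CQ (S_SYM S_C2 c2)

abbrev F := ZMod 2

section abs

variable {V W N X : Type} [AddCommGroup V] [Module F V] [Finite V]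
  [AddCommGroup W] [Module F W] [Finite W] [AddCommGroup N] [Module F N] [Finite N]
  [AddCommGroup X] [Module F X] [Finite X]

lemma card_mod (Q : Type) [AddCommGroup Q] [Module F Q] [Finite Q] :
    Nat.card Q = 2 ^ finrank F Q := by
  have := Fintype.ofFinite Q
  rw [Nat.card_eq_fintype_card, Module.card_eq_pow_finrank (K := F), ZMod.card]

instance finHom : Finite (V →ₗ[F] W) := DFunLike.finite _

instance finHom2 : Finite (V →ₗ[F] V →ₗ[F] F) := DFunLike.finite _

/-- the symmetric forms -/
def Sy (V : Type) [AddCommGroup V] [Module F V] : AddSubgroup (V →ₗ[F] V →ₗ[F] F) where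
  carrier := {S | ∀ x y, S x y = S y x}
  zero_mem' := fun _ _ => rfl
  add_mem' := fun {S T} hS hT x y => by
    show S x y + T x y = S y x + T y x
    rw [hS, hT]
  neg_mem' := fun {S} hS x y => by
    show - S x y = - S y x
    rw [hS]

instance finSy : Finite (Sy V) := Subtype.finite

/-- the product -/
noncomputable def sp (m : ℕ) : ℝ :=
  ∏ i ∈ Finset.range ((m + 1) / 2), (1 - (1 / 2 : ℝ) ^ (2 * i + 1))

/-- nonsingular -/
def Ns (S : V →ₗ[F] V →ₗ[F] F) : Prop := ∀ x, (∀ y, S x y = 0) → x = 0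

lemma card_symm (n : ℕ) : Nat.card {M : Matrix (Fin n) (Fin n) F // M.IsSymm} =
    2 ^ (n * (n + 1) / 2) := by
  have e : {M : Matrix (Fin n) (Fin n) F // M.IsSymm} ≃ (Sym2 (Fin n) → F) :=
    (Equiv.subtypeEquiv (Equiv.refl _) (fun M => by
      rw [Matrix.IsSymm.ext_iff]
      exact ⟨fun h i j => h j i, fun h i j => h j i⟩)).trans Sym2.lift
  rw [Nat.card_congr e, Nat.card_fun, Nat.card_eq_fintype_card, Nat.card_eq_fintype_card,
    ZMod.card, Sym2.card, Fintype.card_fin, Nat.choose_two_right, Nat.add_sub_cancel, mul_comm]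

theorem fr_Ns (h : S_SYM) : fr (fun S : Sy V => Ns S.1) = sp (finrank F V) := by
  obtain ⟨n, hn⟩ : ∃ n, n = finrank F V := ⟨_, rfl⟩
  rw [← hn]
  let b : Basis (Fin n) F V := Module.finBasisOfFinrankEq F V hn.symm
  have hsymm : ∀ S : V →ₗ[F] V →ₗ[F] F, S ∈ Sy V ↔
      ((LinearMap.BilinForm.toMatrix b).toEquiv S).IsSymm := by
    intro S
    refine Iff.trans ?_ (LinearMap.BilinForm.isSymm_toMatrix_iff_isSymm (B := S) b).symm
    exact ⟨fun h => ⟨fun x y => h x y⟩, fun h x y => h.eq x y⟩
  have hns : ∀ S : V →ₗ[F] V →ₗ[F] F, S ∈ Sy V → (Ns S ↔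
      ((LinearMap.BilinForm.toMatrix b).toEquiv S).det ≠ 0) := by
    intro S hS
    refine Iff.trans ?_ (LinearMap.BilinForm.nondegenerate_iff_det_ne_zero (B := S) b)
    exact ⟨fun h => ⟨h, fun y hy => h y fun x => by rw [hS]; exact hy x⟩, fun h => h.1⟩
  have e1 : Sy V ≃ {M : Matrix (Fin n) (Fin n) F // M.IsSymm} :=
    Equiv.subtypeEquiv (LinearMap.BilinForm.toMatrix b).toEquiv hsymm
  have e2 : {S : Sy V // Ns S.1} ≃ {M : Matrix (Fin n) (Fin n) F // M.IsSymm ∧ M.det ≠ 0} :=
    (Equiv.subtypeSubtypeEquivSubtypeInter (fun S => S ∈ Sy V) (fun S => Ns S)).trans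
      (Equiv.subtypeEquiv (LinearMap.BilinForm.toMatrix b).toEquiv fun S => by
        constructor
        · rintro ⟨h1, h2⟩
          exact ⟨(hsymm S).1 h1, (hns S h1).1 h2⟩
        · rintro ⟨h1, h2⟩
          have h3 := (hsymm S).2 h1
          exact ⟨h3, (hns S h3).2 h2⟩)
  unfold fr
  rw [Nat.card_congr e1, Nat.card_congr e2, card_symm, h n]
  push_cast
  rw [mul_div_assoc, mul_comm, div_mul_cancel₀]
  · rfl
  · positivity

/-- averaging over a subgroup -/
lemma fr_avg {G H : Type} [AddCommGroup G] [AddCommGroup H] [Fintype G] [Finite H] (φ : H →+ G)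
    (P : G → Prop) : fr P = (∑ g, fr (fun h => P (g + φ h))) / Nat.card G := by
  rw [← fr_prod (fun g h => P (g + φ h))]
  let π : G × H →+ G :=
    { toFun := fun x => x.1 + φ x.2
      map_zero' := by simp
      map_add' := fun x y => by
        show x.1 + y.1 + φ (x.2 + y.2) = (x.1 + φ x.2) + (y.1 + φ y.2)
        rw [map_add]
        abel }
  have hπ : Surjective π := fun g => ⟨(g, 0), by
    show g + φ 0 = g
    rw [map_zero, add_zero]⟩
  exact (fr_comp π hπ P).symm

lemma avg_bound {G H : Type} [AddCommGroup G] [AddCommGroup H] [Finite G] [Finite H] (φ : H →+ G)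
    (P Good : G → Prop) {c ε δ : ℝ} (hc0 : 0 ≤ c) (hc1 : c ≤ 1)
    (hg : ∀ g, Good g → |fr (fun h => P (g + φ h)) - c| ≤ ε) (hε : 0 ≤ ε)
    (hb : fr (fun g => ¬ Good g) ≤ δ) : |fr P - c| ≤ ε + δ := by
  have := Fintype.ofFinite G
  have hG : (0 : ℝ) < Nat.card G := by exact_mod_cast Nat.card_pos
  rw [fr_avg φ P]
  have h1 : (∑ g : G, fr (fun h => P (g + φ h))) / Nat.card G - c =
      (∑ g : G, (fr (fun h => P (g + φ h)) - c)) / Nat.card G := by
    rw [Finset.sum_sub_distrib, Finset.sum_const, nsmul_eq_mul, Finset.card_univ,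
      ← Nat.card_eq_fintype_card, sub_div, mul_div_cancel_left₀ _ hG.ne']
  rw [h1, abs_div, abs_of_pos hG, div_le_iff₀ hG]
  have h2 : ∀ g : G, |fr (fun h => P (g + φ h)) - c| ≤ ε + (if ¬ Good g then 1 else 0) := by
    intro g
    by_cases h : Good g
    · rw [if_neg (not_not.2 h), add_zero]
      exact hg g h
    · rw [if_pos h]
      have h3 := fr_nonneg (fun h => P (g + φ h))
      have h4 := fr_le_one (fun h => P (g + φ h))
      rw [abs_le]
      constructor <;> linarith
  refine (Finset.abs_sum_le_sum_abs _ _).trans ((Finset.sum_le_sum fun g _ => h2 g).trans ?_)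
  rw [Finset.sum_add_distrib, Finset.sum_const, nsmul_eq_mul, Finset.card_univ,
    ← Nat.card_eq_fintype_card, Finset.sum_boole]
  have h5 : ((Finset.univ.filter fun g => ¬ Good g).card : ℝ) = fr (fun g => ¬ Good g) * Nat.card G := by
    unfold fr
    rw [div_mul_cancel₀ _ hG.ne', Nat.card_eq_fintype_card, Fintype.card_subtype]
  rw [h5]
  nlinarith [mul_le_mul_of_nonneg_right hb hG.le]

/-- reduction to the quotient of the orthogonal complement of the kernel by its radical -/
theorem red (hsym : S_SYM) (M : W →ₗ[F] W →ₗ[F] F) (hM : ∀ x y, M x y = M y x) (π : W →ₗ[F] N)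
    (hπ : Surjective π) (good : ∀ w, π w = 0 → (∀ w', M w w' = 0) → w = 0) (τ : W →ₗ[F] X)
    (hτ : ∀ w, π w = 0 → (∀ k, π k = 0 → M w k = 0) → τ w = 0 → w = 0) :
    ∃ m, finrank F N ≤ m + finrank F X ∧
      fr (fun T : Sy N => ∀ w, (∀ w', M w w' + T.1 (π w) (π w') = 0) → w = 0) = sp m := by
  have hR : LinearMap.IsRefl M := fun x y h => by rw [hM]; exact h
  let K : Submodule F W := LinearMap.ker π
  let P : Submodule F W := LinearMap.BilinForm.orthogonal M K
  have hP : ∀ w, w ∈ P ↔ ∀ k, π k = 0 → M w k = 0 := fun w => by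
    constructor
    · intro h k hk
      rw [hM]
      exact h k hk
    · intro h k hk
      rw [hM]
      exact h k hk
  have hfin1 : finrank F K + finrank F P = finrank F W := by
    have h1 := LinearMap.BilinForm.finrank_add_finrank_orthogonal hR K
    have h2 : K ⊓ LinearMap.BilinForm.orthogonal M ⊤ = ⊥ := by
      rw [eq_bot_iff]
      intro w hw
      rw [Submodule.mem_inf] at hw
      rw [Submodule.mem_bot]
      exact good w hw.1 (fun w' => by rw [hM]; exact hw.2 w' Submodule.mem_top)
    rw [h2, finrank_bot, add_zero] at h1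
    exact h1
  have hfin2 : finrank F N + finrank F K = finrank F W := by
    have h1 := LinearMap.finrank_range_add_finrank_ker π
    rw [LinearMap.range_eq_top.2 hπ, finrank_top] at h1
    exact h1
  let r : P →ₗ[F] N := π.domRestrict P
  let Z := LinearMap.range r
  have hfin3 : finrank F Z + finrank F (LinearMap.ker r) = finrank F P :=
    LinearMap.finrank_range_add_finrank_ker r
  have hfin4 : finrank F (LinearMap.ker r) ≤ finrank F X := by
    refine LinearMap.finrank_le_finrank_of_injective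
      (f := τ ∘ₗ P.subtype ∘ₗ (LinearMap.ker r).subtype) ?_
    rw [injective_iff_map_eq_zero]
    intro w hw
    have h1 : π (w.1 : W) = 0 := w.2
    have h2 := hτ _ h1 ((hP _).1 w.1.2) hw
    exact Subtype.ext (Subtype.ext h2)
  refine ⟨finrank F Z, by omega, ?_⟩
  obtain ⟨σ, hσ⟩ := r.rangeRestrict.exists_rightInverse_of_surjective
    (LinearMap.range_rangeRestrict r)
  have hσ' : ∀ z : Z, π (σ z : W) = z := fun z => congrArg Subtype.val (LinearMap.congr_fun hσ z)
  have hσP : ∀ z : Z, ((σ z : P) : W) ∈ P := fun z => (σ z).2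
  let ρ : Sy N →+ Sy Z :=
    { toFun := fun T => ⟨T.1.compl₁₂ Z.subtype Z.subtype, fun x y => T.2 x y⟩
      map_zero' := rfl
      map_add' := fun _ _ => rfl }
  have hρ : Surjective ρ := by
    obtain ⟨q, hq⟩ := LinearMap.exists_leftInverse_of_injective Z.subtype
      (LinearMap.ker_eq_bot.2 Z.injective_subtype)
    have hq' : ∀ z : Z, q (z : N) = z := fun z => LinearMap.congr_fun hq z
    intro T
    refine ⟨⟨T.1.compl₁₂ q q, fun x y => T.2 _ _⟩, ?_⟩
    refine Subtype.ext (LinearMap.ext fun x => LinearMap.ext fun y => ?_)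
    show T.1 (q (x : N)) (q (y : N)) = T.1 x y
    rw [hq', hq']
  let β : Sy Z := ⟨M.compl₁₂ (P.subtype ∘ₗ σ) (P.subtype ∘ₗ σ), fun x y => hM _ _⟩
  have hval : ∀ (T : Sy N) (z z' : Z), (ρ T + β).1 z z' =
      T.1 (z : N) (z' : N) + M (σ z : W) (σ z' : W) := fun _ _ _ => rfl
  have hiff : ∀ T : Sy N, (∀ w, (∀ w', M w w' + T.1 (π w) (π w') = 0) → w = 0) ↔
      Ns (ρ T + β).1 := by
    intro T
    constructor
    · intro h z hz
      let M' : W →ₗ[F] W →ₗ[F] F := M + T.1.compl₁₂ π π
      have hM' : ∀ w w', M' w w' = M w w' + T.1 (π w) (π w') := fun _ _ => rfl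
      have hS' : ∀ w w', M' w w' = M' w' w := fun w w' => by
        rw [hM', hM', hM w w', T.2 (π w) (π w')]
      have hR' : LinearMap.IsRefl M' := fun x y h => by rw [hS']; exact h
      have hN' : LinearMap.BilinForm.Nondegenerate M' := ⟨h, fun y hy => h y fun x => by
        rw [← hM', hS']; exact hy x⟩
      have h1 := LinearMap.BilinForm.orthogonal_orthogonal hN' hR' K
      have h2 : LinearMap.BilinForm.orthogonal M' K = P := by
        ext w
        constructor
        · intro hw k hk
          have h3 := hw k hk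
          have h4 : π k = 0 := hk
          rw [hM', h4, map_zero, LinearMap.zero_apply, add_zero] at h3
          exact h3
        · intro hw k hk
          have h4 : π k = 0 := hk
          rw [hM', h4, map_zero, LinearMap.zero_apply, add_zero]
          exact hw k hk
      rw [h2] at h1
      have h3 : ((σ z : P) : W) ∈ LinearMap.BilinForm.orthogonal M' P := by
        intro w' hw'
        rw [hS', hM']
        obtain ⟨z', hz'⟩ : ∃ z' : Z, (z' : N) = π w' := ⟨⟨π w', ⟨w', hw'⟩, rfl⟩, rfl⟩
        have h4 := hz z'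
        rw [hval] at h4
        have h5 : π (w' - (σ z' : W)) = 0 := by rw [map_sub, hσ', hz', sub_self]
        have h6 := (hP _).1 (hσP z) _ h5
        rw [map_sub, sub_eq_zero] at h6
        rw [h6, hσ', ← hz', add_comm]
        exact h4
      rw [h1] at h3
      have h7 : π (σ z : W) = 0 := h3
      rw [hσ'] at h7
      exact Subtype.ext h7
    · intro h w hw
      have hwP : w ∈ P := (hP w).2 fun k hk => by
        have h1 := hw k
        rwa [hk, map_zero, add_zero] at h1
      obtain ⟨z, hz⟩ : ∃ z : Z, (z : N) = π w := ⟨⟨π w, ⟨w, hwP⟩, rfl⟩, rfl⟩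
      have h1 : z = 0 := h z fun z' => by
        rw [hval]
        have h5 : π (w - (σ z : W)) = 0 := by rw [map_sub, hσ', hz, sub_self]
        have h6 := (hP _).1 (hσP z') _ h5
        rw [map_sub, sub_eq_zero] at h6
        rw [hM, ← h6, hM, hz, ← hσ' z', add_comm]
        exact hw _
      have h2 : π w = 0 := by rw [← hz, h1]; rfl
      refine good w h2 fun w' => ?_
      have h3 := hw w'
      rwa [h2, map_zero, LinearMap.zero_apply, add_zero] at h3
  rw [← fr_Ns hsym (V := Z), ← fr_equiv (Equiv.addRight β) (fun S : Sy Z => Ns S.1),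
    ← fr_comp ρ hρ]
  congr 1
  funext T
  exact propext (hiff T)

end abs

end Pool.Agent.Y219.CQ
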