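import Pool.Agent.H68.L.R_seed8.Y219.CQ.Abs

/-!
# Project CQ: the block system, abstractly
-/

set_option autoImplicit false

open scoped Classical

namespace Pool.Agent.Y219.CQ

open Function Module
open Pool.Agent.Y759.CX (fr fr_equiv fr_nonneg fr_le_one fr_mono fr_not fr_prod fr_comp fr_exists
  fr_single)
open Pool.Agent.Y703.CQ (S_SYM S_C2 c2)

section blk

variable {V X : Type} [AddCommGroup V] [Module F V] [Finite V]
  [AddCommGroup X] [Module F X] [Finite X]

/-- the block system, abstractly -/
def Gs (A : X →ₗ[F] X →ₗ[F] F) (c : X →ₗ[F] V →ₗ[F] F) (S : V →ₗ[F] V →ₗ[F] F) : Prop :=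
  ∀ x y, (∀ x', A x x' + c x' y = 0) → (∀ y', c x y' + S y y' = 0) → x = 0 ∧ y = 0

/-- the whole form -/
noncomputable def mf (A : X →ₗ[F] X →ₗ[F] F) (c : X →ₗ[F] V →ₗ[F] F) (S : V →ₗ[F] V →ₗ[F] F) :
    (X × V) →ₗ[F] (X × V) →ₗ[F] F :=
  LinearMap.mk₂ F (fun w w' => A w.1 w'.1 + c w.1 w'.2 + c w'.1 w.2 + S w.2 w'.2)
    (fun x y z => by
      simp only [Prod.fst_add, Prod.snd_add, map_add, LinearMap.add_apply]
      abel)
    (fun a x y => by
      simp only [Prod.smul_fst, Prod.smul_snd, map_smul, LinearMap.smul_apply, smul_add])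
    (fun x y z => by
      simp only [Prod.fst_add, Prod.snd_add, map_add, LinearMap.add_apply]
      abel)
    (fun a x y => by
      simp only [Prod.smul_fst, Prod.smul_snd, map_smul, LinearMap.smul_apply, smul_add])

lemma mf_apply (A : X →ₗ[F] X →ₗ[F] F) (c : X →ₗ[F] V →ₗ[F] F) (S : V →ₗ[F] V →ₗ[F] F)
    (w w' : X × V) : mf A c S w w' = A w.1 w'.1 + c w.1 w'.2 + c w'.1 w.2 + S w.2 w'.2 := rfl

lemma half_bound {m u n : ℕ} (h : n ≤ m + 2 * u) :
    (1 / 4 : ℝ) ^ ((m + 1) / 2) ≤ 4 ^ u / 2 ^ n := by
  have h1 : (1 / 4 : ℝ) ^ ((m + 1) / 2) ≤ (1 / 2) ^ m := by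
    have h2 : (1 / 4 : ℝ) = (1 / 2) ^ 2 := by norm_num
    rw [h2, ← pow_mul]
    exact pow_le_pow_of_le_one (by norm_num) (by norm_num) (by omega)
  refine h1.trans ?_
  rw [le_div_iff₀ (by positivity), one_div_pow, one_div, inv_mul_le_iff₀ (by positivity)]
  have h3 : (4 : ℝ) ^ u = 2 ^ (2 * u) := by
    rw [pow_mul]
    norm_num
  rw [h3, ← pow_add]
  exact pow_le_pow_right₀ (by norm_num) h

theorem fr_Gs (hsym : S_SYM) (hc2 : S_C2) (A : X →ₗ[F] X →ₗ[F] F) (hA : ∀ x y, A x y = A y x)
    (c : X →ₗ[F] V →ₗ[F] F) (hc : ∀ x, (∀ y, c x y = 0) → x = 0) :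
    |fr (fun S : Sy V => Gs A c S.1) - c2| ≤ 2 * (4 ^ finrank F X / 2 ^ finrank F V) := by
  let N : Submodule F V := LinearMap.ker c.flip
  have hN : ∀ z : N, ∀ x, c x (z : V) = 0 := fun z x => LinearMap.congr_fun (z.2 : c.flip z = 0) x
  have hN' : ∀ z : V, (∀ x, c x z = 0) → z ∈ N := fun z hz => LinearMap.ext fun x => hz x
  obtain ⟨p, hp⟩ := LinearMap.exists_leftInverse_of_injective N.subtype
    (LinearMap.ker_eq_bot.2 N.injective_subtype)
  have hp' : ∀ z : N, p (z : V) = z := fun z => LinearMap.congr_fun hp z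
  have hpS : Surjective p := fun z => ⟨z, hp' z⟩
  have hd1 : finrank F V ≤ finrank F N + finrank F X := by
    have h1 := LinearMap.finrank_range_add_finrank_ker c.flip
    have h2 : finrank F (LinearMap.range c.flip) ≤ finrank F (Module.Dual F X) :=
      Submodule.finrank_le _
    rw [Subspace.dual_finrank_eq] at h2
    have h3 : finrank F N = finrank F (LinearMap.ker c.flip) := rfl
    omega
  have hd2 : finrank F N + finrank F (LinearMap.ker p) = finrank F V := by
    have h1 := LinearMap.finrank_range_add_finrank_ker p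
    rw [LinearMap.range_eq_top.2 hpS, finrank_top] at h1
    exact h1
  let φ : Sy N →+ Sy V :=
    { toFun := fun T => ⟨T.1.compl₁₂ p p, fun x y => T.2 _ _⟩
      map_zero' := rfl
      map_add' := fun _ _ => rfl }
  have hφ : ∀ (S : Sy V) (T : Sy N) (y y' : V), (S + φ T).1 y y' = S.1 y y' + T.1 (p y) (p y') :=
    fun _ _ _ _ => rfl
  have key := avg_bound φ (fun S : Sy V => Gs A c S.1)
    (fun S : Sy V => ¬ ∃ e : LinearMap.ker p, e ≠ 0 ∧ ∀ z : N, S.1 e z = 0) (c := c2)
    (ε := 4 ^ finrank F X / 2 ^ finrank F V) (δ := 4 ^ finrank F X / 2 ^ finrank F V)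
    hc2.2.1.le hc2.2.2.1.le ?_ (by positivity) ?_
  · rw [two_mul]
    exact key
  · intro S hS
    have hS' : ∀ y : V, p y = 0 → (∀ z : N, S.1 y z = 0) → y = 0 := by
      intro y hy hz
      by_contra hne
      exact hS ⟨⟨y, hy⟩, fun h => hne (congrArg Subtype.val h), hz⟩
    obtain ⟨m, hm, hm'⟩ := red (X := X) hsym (mf A c S.1)
      (fun w w' => by
        rw [mf_apply, mf_apply, hA w.1 w'.1, S.2 w.2 w'.2]
        abel)
      (p ∘ₗ LinearMap.snd F X V) (hpS.comp Prod.snd_surjective)
      (by
        intro w hw h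
        have h2 : w.2 = 0 := hS' _ hw fun z => by
          have h3 := h (0, (z : V))
          rw [mf_apply] at h3
          simp only [map_zero, LinearMap.zero_apply, zero_add, hN, add_zero] at h3
          exact h3
        have h1 : w.1 = 0 := hc _ fun y => by
          have h3 := h (0, y)
          rw [mf_apply, h2] at h3
          simp only [map_zero, LinearMap.zero_apply, zero_add, add_zero] at h3
          exact h3
        exact Prod.ext h1 h2)
      (LinearMap.fst F X V)
      (by
        intro w hw h h1
        have h1' : w.1 = 0 := h1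
        have h2 : w.2 ∈ N := hN' _ fun x => by
          have h3 := h (x, 0) (by
            show p 0 = 0
            rw [map_zero])
          rw [mf_apply, h1'] at h3
          simp only [map_zero, LinearMap.zero_apply, zero_add, add_zero] at h3
          exact h3
        have h3 := hp' ⟨w.2, h2⟩
        have h4 : p w.2 = 0 := hw
        have h5 : w.2 = 0 := by
          have h6 := congrArg Subtype.val h3
          simp only [h4] at h6
          exact h6.symm
        exact Prod.ext h1' h5)
    have h2 : fr (fun T : Sy N => Gs A c (S + φ T).1) = sp m := by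
      rw [← hm']
      congr 1
      funext T
      apply propext
      constructor
      · intro h w hw
        obtain ⟨h3, h4⟩ := h w.1 w.2 (fun x' => by
            have h5 := hw (x', 0)
            rw [mf_apply] at h5
            simp only [LinearMap.comp_apply, LinearMap.snd_apply, map_zero, add_zero] at h5
            exact h5) (fun y' => by
            have h5 := hw (0, y')
            rw [mf_apply] at h5
            simp only [LinearMap.comp_apply, LinearMap.snd_apply, map_zero, add_zero, zero_add,
              LinearMap.zero_apply] at h5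
            rw [hφ, ← add_assoc]
            exact h5)
        exact Prod.ext h3 h4
      · intro h x y h1 h2
        have h3 := h (x, y) (fun w' => by
          rw [mf_apply]
          have h5 := h1 w'.1
          have h6 := h2 w'.2
          rw [hφ] at h6
          show A x w'.1 + c x w'.2 + c w'.1 y + S.1 y w'.2 + T.1 (p y) (p w'.2) = 0
          calc A x w'.1 + c x w'.2 + c w'.1 y + S.1 y w'.2 + T.1 (p y) (p w'.2)
              = (A x w'.1 + c w'.1 y) + (c x w'.2 + (S.1 y w'.2 + T.1 (p y) (p w'.2))) := by abel
            _ = 0 := by rw [h5, h6, add_zero])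
        exact ⟨congrArg Prod.fst h3, congrArg Prod.snd h3⟩
    rw [h2]
    exact (hc2.1 ((m + 1) / 2)).trans (half_bound (by omega))
  · simp only [not_not]
    have := Fintype.ofFinite (LinearMap.ker p)
    have h1 : ∀ e : LinearMap.ker p, fr (fun S : Sy V => e ≠ 0 ∧ ∀ z : N, S.1 e z = 0) ≤
        1 / 2 ^ finrank F N := by
      intro e
      by_cases he : e = 0
      · have : fr (fun S : Sy V => e ≠ 0 ∧ ∀ z : N, S.1 e z = 0) = 0 := by
          unfold Pool.Agent.Y759.CX.fr
          have : IsEmpty {S : Sy V // e ≠ 0 ∧ ∀ z : N, S.1 e z = 0} := ⟨fun x => x.2.1 he⟩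
          rw [Nat.card_of_isEmpty, Nat.cast_zero, zero_div]
        rw [this]
        positivity
      · let ψ : Sy V →+ (N →ₗ[F] F) :=
          { toFun := fun S => S.1 e ∘ₗ N.subtype
            map_zero' := rfl
            map_add' := fun _ _ => rfl }
        have hψ : Surjective ψ := by
          intro f
          obtain ⟨ε, hε⟩ : ∃ ε : V →ₗ[F] F, ε e = 1 := by
            have h3 := mt (Module.forall_dual_apply_eq_zero_iff F (e : V)).1
              (fun h => he (Subtype.ext h))
            push Not at h3
            obtain ⟨φ, hφ⟩ := h3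
            exact ⟨(φ e)⁻¹ • φ, by
              rw [LinearMap.smul_apply, smul_eq_mul, inv_mul_cancel₀ hφ]⟩
          let S0 : V →ₗ[F] V →ₗ[F] F := LinearMap.mk₂ F (fun y y' => ε y * f (p y') + f (p y) * ε y')
            (fun x y z => by simp only [map_add]; ring)
            (fun a x y => by simp only [map_smul, smul_eq_mul]; ring)
            (fun x y z => by simp only [map_add]; ring)
            (fun a x y => by simp only [map_smul, smul_eq_mul]; ring)
          refine ⟨⟨S0, fun x y => ?_⟩, ?_⟩
          · show ε x * f (p y) + f (p x) * ε y = ε y * f (p x) + f (p y) * ε x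
            ring
          · refine LinearMap.ext fun z => ?_
            show ε e * f (p (z : V)) + f (p (e : V)) * ε z = f z
            have h5 : p (e : V) = 0 := e.2
            rw [hε, hp', h5, map_zero, zero_mul, add_zero, one_mul]
        have h4 : fr (fun S : Sy V => e ≠ 0 ∧ ∀ z : N, S.1 e z = 0) ≤
            fr (fun S : Sy V => (fun f => f = 0) (ψ S)) :=
          fr_mono fun S hS => LinearMap.ext fun z => hS.2 z
        refine h4.trans (le_of_eq ?_)
        rw [fr_comp ψ hψ (fun f => f = 0), fr_single, card_mod]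
        have h6 : finrank F (N →ₗ[F] F) = finrank F N := Subspace.dual_finrank_eq
        rw [h6]
        push_cast
        rfl
    refine (fr_exists _ h1).trans ?_
    rw [← Nat.card_eq_fintype_card, card_mod]
    push_cast
    rw [mul_one_div, div_le_div_iff₀ (by positivity) (by positivity)]
    have h3 : (4 : ℝ) ^ finrank F X = 2 ^ (2 * finrank F X) := by
      rw [pow_mul]
      norm_num
    rw [h3, ← pow_add, ← pow_add]
    exact pow_le_pow_right₀ (by norm_num) (by omega)

end blk

end Pool.Agent.Y219.CQ
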